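import Pool.Agent.Helper26.Cc.Stm

/-! # From admissible curves to all `C¹` curves -/

set_option autoImplicit false

open MeasureTheory Filter Topology Set
open Pool.Agent.Helper26.Cc (Cur S_Cur)

namespace Pool.Agent.Helper46.Cc

/-- A function with a continuous derivative bounded away from zero from above has an inverse. -/
lemma diffeo_pos {F G : ℝ → ℝ} (hF : ∀ t, HasDerivAt F (G t) t) {m : ℝ} (hm : 0 < m)
    (hG : ∀ t, m ≤ G t) :
    ∃ H : ℝ → ℝ, (∀ x, F (H x) = x) ∧ (∀ t, H (F t) = t) ∧ ∀ x, HasDerivAt H (G (H x))⁻¹ x := by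
  have hmono : StrictMono F := by
    refine strictMono_of_deriv_pos fun t => ?_
    rw [(hF t).deriv]
    exact lt_of_lt_of_le hm (hG t)
  have hcont : Continuous F := continuous_iff_continuousAt.2 fun t => (hF t).continuousAt
  have hlin : Monotone fun t => F t - m * t := by
    refine monotone_of_deriv_nonneg (fun t => ?_) fun t => ?_
    · exact ((hF t).sub ((hasDerivAt_id t).const_mul m)).differentiableAt
    · have h1 : HasDerivAt (fun t => F t - m * t) (G t - m * 1) t :=
        (hF t).sub ((hasDerivAt_id t).const_mul m)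
      rw [h1.deriv]
      linarith [hG t]
  have htop : Tendsto F atTop atTop := by
    have h1 : Tendsto (fun t : ℝ => m * t + F 0) atTop atTop :=
      tendsto_atTop_add_const_right _ _ (tendsto_id.const_mul_atTop hm)
    refine tendsto_atTop_mono' _ ?_ h1
    filter_upwards [eventually_ge_atTop (0 : ℝ)] with t ht
    have := hlin ht
    simp only at this
    linarith
  have hbot : Tendsto F atBot atBot := by
    have h1 : Tendsto (fun t : ℝ => m * t + F 0) atBot atBot :=
      tendsto_atBot_add_const_right _ _ (tendsto_id.const_mul_atBot hm)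
    refine tendsto_atBot_mono' _ ?_ h1
    filter_upwards [eventually_le_atBot (0 : ℝ)] with t ht
    have := hlin ht
    simp only at this
    linarith
  have hsurj : Function.Surjective F := hcont.surjective htop hbot
  let e : ℝ ≃o ℝ := hmono.orderIsoOfSurjective F hsurj
  have he : ∀ t, e t = F t := fun t => rfl
  refine ⟨e.symm, fun x => ?_, fun t => ?_, fun x => ?_⟩
  · rw [← he, e.apply_symm_apply]
  · rw [← he, e.symm_apply_apply]
  · refine HasDerivAt.of_local_left_inverse (e.symm.continuous.continuousAt) (hF _)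
      (lt_of_lt_of_le hm (hG _)).ne' (Eventually.of_forall fun y => ?_)
    rw [← he, e.apply_symm_apply]

lemma const_sign {G : ℝ → ℝ} (hc : Continuous G) {m : ℝ} (hm : 0 < m) (hG : ∀ t, m ≤ |G t|) :
    (∀ t, m ≤ G t) ∨ ∀ t, m ≤ -G t := by
  by_contra hcon
  push Not at hcon
  obtain ⟨⟨a, ha⟩, b, hb⟩ := hcon
  have h1 : G a ≤ -m := by
    have := hG a
    rcases abs_cases (G a) with ⟨h2, _⟩ | ⟨h2, _⟩
    · rw [h2] at this
      linarith
    · rw [h2] at this
      linarith
  have h2 : m ≤ G b := by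
    have := hG b
    rcases abs_cases (G b) with ⟨h2, _⟩ | ⟨h2, _⟩
    · rwa [h2] at this
    · rw [h2] at this
      linarith
  obtain ⟨c, hc0⟩ : ∃ c, G c = 0 :=
    mem_range_of_exists_le_of_exists_ge hc ⟨a, by linarith⟩ ⟨b, by linarith⟩
  have := hG c
  rw [hc0, abs_zero] at this
  linarith

lemma diffeo {F G : ℝ → ℝ} (hF : ∀ t, HasDerivAt F (G t) t) (hc : Continuous G) {m : ℝ}
    (hm : 0 < m) (hG : ∀ t, m ≤ |G t|) :
    ∃ H : ℝ → ℝ, (∀ x, F (H x) = x) ∧ (∀ t, H (F t) = t) ∧ ∀ x, HasDerivAt H (G (H x))⁻¹ x := by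
  rcases const_sign hc hm hG with h | h
  · exact diffeo_pos hF hm h
  · obtain ⟨H, h1, h2, h3⟩ := diffeo_pos (F := fun t => -F t) (G := fun t => -G t)
      (fun t => (hF t).neg) hm h
    refine ⟨fun x => H (-x), fun x => ?_, fun t => h2 t, fun x => ?_⟩
    · have := h1 (-x)
      linarith
    · have h4 := (h3 (-x)).comp x (hasDerivAt_neg x)
      have h5 : (-G (H (-x)))⁻¹ * (-1) = (G (H (-x)))⁻¹ := by
        rw [inv_neg]
        ring
      rw [h5] at h4
      exact h4

/-- The extension of a `C¹` function from an interval by affine functions. -/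
noncomputable def xt (x : ℝ → ℝ) (p q : ℝ) (t : ℝ) : ℝ :=
  x p + ∫ s in p..t, deriv x (max p (min q s))

section

variable {x : ℝ → ℝ} (hx : ContDiff ℝ 1 x) {p q : ℝ} (hpq : p < q)

include hx in
lemma cont_X : Continuous fun s => deriv x (max p (min q s)) :=
  (hx.continuous_deriv le_rfl).comp (continuous_const.max (continuous_const.min continuous_id))

include hx in
lemma der_x (t : ℝ) : HasDerivAt x (deriv x t) t :=
  ((hx.differentiable (by norm_num)) t).hasDerivAt

include hx in
lemma der_xt (t : ℝ) : HasDerivAt (xt x p q) (deriv x (max p (min q t))) t := by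
  have h1 := ((cont_X hx (p := p) (q := q)).integral_hasStrictDerivAt p t).hasDerivAt
  exact h1.const_add (x p)

include hx in
lemma xt_eq {t : ℝ} (h1 : p ≤ t) (h2 : t ≤ q) : xt x p q t = x t := by
  unfold xt
  have h3 : ∫ s in p..t, deriv x (max p (min q s)) = ∫ s in p..t, deriv x s := by
    refine intervalIntegral.integral_congr fun s hs => ?_
    rw [uIcc_of_le h1] at hs
    rw [min_eq_right (hs.2.trans h2), max_eq_right hs.1]
  rw [h3, intervalIntegral.integral_deriv_eq_sub' x rfl (fun s _ => (der_x hx s).differentiableAt)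
    (hx.continuous_deriv le_rfl).continuousOn]
  ring

include hpq in
lemma xt_left {t : ℝ} (h : t ≤ p) : xt x p q t = x p + deriv x p * (t - p) := by
  unfold xt
  have h3 : ∫ s in p..t, deriv x (max p (min q s)) = ∫ s in p..t, deriv x p := by
    refine intervalIntegral.integral_congr fun s hs => ?_
    rw [uIcc_of_ge h] at hs
    rw [min_eq_right (hs.2.trans hpq.le), max_eq_left hs.2]
  rw [h3, intervalIntegral.integral_const, smul_eq_mul]
  ring

include hx hpq in
lemma xt_right {t : ℝ} (h : q ≤ t) : xt x p q t = x q + deriv x q * (t - q) := by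
  have h0 := xt_eq hx (le_refl q |>.trans' hpq.le) (le_refl q)
  unfold xt at h0 ⊢
  have hi : ∀ a b : ℝ, IntervalIntegrable (fun s => deriv x (max p (min q s))) volume a b :=
    fun a b => (cont_X hx).intervalIntegrable a b
  have h3 : ∫ s in q..t, deriv x (max p (min q s)) = ∫ s in q..t, deriv x q := by
    refine intervalIntegral.integral_congr fun s hs => ?_
    rw [uIcc_of_le h] at hs
    rw [min_eq_left hs.1, max_eq_right hpq.le]
  rw [← intervalIntegral.integral_add_adjacent_intervals (hi p q) (hi q t), ← add_assoc, h0, h3,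
    intervalIntegral.integral_const, smul_eq_mul]
  ring

include hx hpq in
lemma bd_X (h0 : ∀ t ∈ Icc p q, deriv x t ≠ 0) :
    ∃ m M : ℝ, 0 < m ∧ 0 < M ∧ ∀ t, m ≤ |deriv x (max p (min q t))| ∧
      |deriv x (max p (min q t))| ≤ M := by
  have hne : (Icc p q).Nonempty := ⟨p, le_rfl, hpq.le⟩
  have hc : ContinuousOn (fun t => |deriv x t|) (Icc p q) :=
    ((hx.continuous_deriv le_rfl).abs).continuousOn
  obtain ⟨a, ha, hmin⟩ := isCompact_Icc.exists_isMinOn hne hc
  obtain ⟨b, hb, hmax⟩ := isCompact_Icc.exists_isMaxOn hne hc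
  refine ⟨|deriv x a|, |deriv x b|, abs_pos.2 (h0 a ha), abs_pos.2 (h0 b hb), fun t => ?_⟩
  have hmem : max p (min q t) ∈ Icc p q :=
    ⟨le_max_left _ _, max_le hpq.le (min_le_left _ _)⟩
  exact ⟨hmin hmem, hmax hmem⟩

end

/-- Sard's theorem on the line. -/
lemma sard {x : ℝ → ℝ} (hx : ContDiff ℝ 1 x) : volume (x '' {t | deriv x t = 0}) = 0 := by
  refine MeasureTheory.addHaar_image_eq_zero_of_det_fderivWithin_eq_zero (μ := volume)
    (f' := fun t => ContinuousLinearMap.smulRight (1 : ℝ →L[ℝ] ℝ) (deriv x t)) (fun t _ => ?_)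
    fun t ht => ?_
  · exact (der_x hx t).hasFDerivAt.hasFDerivWithinAt
  · have h1 : deriv x t = 0 := ht
    rw [h1]
    have h2 : ContinuousLinearMap.smulRight (1 : ℝ →L[ℝ] ℝ) (0 : ℝ) = 0 := by
      ext
      simp
    rw [h2]
    simp [ContinuousLinearMap.det]


/-- An affine function which is not zero at a point has at most one zero. -/
lemma affine_zero {a b c : ℝ} (ha : a ≠ 0) : {t : ℝ | a + b * (t - c) = 0}.Countable := by
  refine Set.Subsingleton.countable fun s hs t ht => ?_
  have h1 : a + b * (s - c) = 0 := hs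
  have h2 : a + b * (t - c) = 0 := ht
  have hb : b ≠ 0 := by
    rintro rfl
    rw [zero_mul, add_zero] at h1
    exact ha h1
  have h3 : b * (s - t) = 0 := by linarith
  rcases mul_eq_zero.1 h3 with h | h
  · exact absurd h hb
  · linarith

/-- A piece of the curve lies on the graph of an admissible function. -/
lemma piece {x y : ℝ → ℝ} (hx : ContDiff ℝ 1 x) (hy : ContDiff ℝ 1 y) {p q : ℝ} (hpq : p < q)
    (hx0 : ∀ t ∈ Icc p q, deriv x t ≠ 0) (hy0 : ∀ t ∈ Icc p q, deriv y t ≠ 0)
    (hxy : ∀ t ∈ Icc p q, x t ≠ y t) :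
    ∃ h f g : ℝ → ℝ, Cur h f g ∧ ∀ t ∈ Icc p q, x t = f (y t) := by
  obtain ⟨m1, M1, hm1, hM1, hb1⟩ := bd_X hx hpq hx0
  obtain ⟨m2, M2, hm2, hM2, hb2⟩ := bd_X hy hpq hy0
  obtain ⟨H1, a1, a2, a3⟩ := diffeo (der_xt hx (p := p) (q := q)) (cont_X hx) hm1
    fun t => (hb1 t).1
  obtain ⟨H2, b1, b2, b3⟩ := diffeo (der_xt hy (p := p) (q := q)) (cont_X hy) hm2
    fun t => (hb2 t).1
  have hH2 : Continuous H2 := continuous_iff_continuousAt.2 fun t => (b3 t).continuousAt
  set X : ℝ → ℝ := fun t => deriv x (max p (min q t)) with hX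
  set Y : ℝ → ℝ := fun t => deriv y (max p (min q t)) with hY
  have hXc : Continuous X := cont_X hx
  have hYc : Continuous Y := cont_X hy
  have hY0 : ∀ t, Y t ≠ 0 := fun t => abs_pos.1 (lt_of_lt_of_le hm2 (hb2 t).1)
  refine ⟨fun s => xt y p q (H1 s), fun s => xt x p q (H2 s), fun s => X (H2 s) * (Y (H2 s))⁻¹,
    { hf := fun s => ?_
      fh := fun s => ?_
      der := fun s => ?_
      cont := ?_
      bd := ?_
      fix := ?_ }, fun t ht => ?_⟩
  · rw [b2, a1]
  · rw [a2, b1]
  · exact (der_xt hx (p := p) (q := q) (H2 s)).comp s (b3 s)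
  · exact (hXc.comp hH2).mul ((hYc.comp hH2).inv₀ fun s => hY0 _)
  · refine ⟨m1 / M2, M1 / m2, div_pos hm1 hM2, fun s => ?_⟩
    have h1 := hb1 (H2 s)
    have h2 := hb2 (H2 s)
    have h3 : |X (H2 s) * (Y (H2 s))⁻¹| = |X (H2 s)| / |Y (H2 s)| := by
      rw [abs_mul, abs_inv, div_eq_mul_inv]
    have h4 : 0 < |Y (H2 s)| := abs_pos.2 (hY0 _)
    change m1 / M2 ≤ |X (H2 s) * (Y (H2 s))⁻¹| ∧ |X (H2 s) * (Y (H2 s))⁻¹| ≤ M1 / m2
    rw [h3]
    constructor
    · exact div_le_div₀ (abs_nonneg _) h1.1 h4 h2.2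
    · exact div_le_div₀ hM1.le h1.2 hm2 h2.1
  · -- fixed points
    have hcount : {t : ℝ | xt x p q t = xt y p q t}.Countable := by
      have hsub : {t : ℝ | xt x p q t = xt y p q t} ⊆
          {t : ℝ | (x p - y p) + (deriv x p - deriv y p) * (t - p) = 0} ∪
            {t : ℝ | (x q - y q) + (deriv x q - deriv y q) * (t - q) = 0} := by
        intro t ht
        have ht' : xt x p q t = xt y p q t := ht
        rcases le_or_gt t p with h1 | h1
        · left
          rw [xt_left hpq h1, xt_left hpq h1] at ht'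
          change (x p - y p) + (deriv x p - deriv y p) * (t - p) = 0
          linarith
        · rcases le_or_gt t q with h2 | h2
          · exfalso
            rw [xt_eq hx h1.le h2, xt_eq hy h1.le h2] at ht'
            exact hxy t ⟨h1.le, h2⟩ ht'
          · right
            rw [xt_right hx hpq h2.le, xt_right hy hpq h2.le] at ht'
            change (x q - y q) + (deriv x q - deriv y q) * (t - q) = 0
            linarith
      refine Set.Countable.mono hsub (Set.Countable.union ?_ ?_)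
      · exact affine_zero (sub_ne_zero.2 (hxy p ⟨le_rfl, hpq.le⟩))
      · exact affine_zero (sub_ne_zero.2 (hxy q ⟨hpq.le, le_rfl⟩))
    have hsub2 : {s : ℝ | xt x p q (H2 s) = s} ⊆
        (xt y p q) '' {t : ℝ | xt x p q t = xt y p q t} := by
      intro s hs
      have hs' : xt x p q (H2 s) = s := hs
      refine ⟨H2 s, ?_, b1 s⟩
      change xt x p q (H2 s) = xt y p q (H2 s)
      rw [hs', b1]
    exact ((hcount.image _).mono hsub2).measure_zero _
  · change x t = xt x p q (H2 (y t))
    have h1 : y t = xt y p q t := (xt_eq hy ht.1 ht.2).symm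
    rw [h1, b2, xt_eq hx ht.1 ht.2]

/-- From the curves of the structure `Cur` to all `C¹` curves. -/
theorem cur : S_Cur := by
  intro m _ hN hC γ hγ
  set x : ℝ → ℝ := fun t => (γ t).1 with hxdef
  set y : ℝ → ℝ := fun t => (γ t).2 with hydef
  have hx : ContDiff ℝ 1 x := contDiff_fst.comp hγ
  have hy : ContDiff ℝ 1 y := contDiff_snd.comp hγ
  set O : Set ℝ := {t | deriv x t ≠ 0 ∧ deriv y t ≠ 0 ∧ x t ≠ y t} with hO
  have hOo : IsOpen O := by
    refine (isOpen_ne_fun (hx.continuous_deriv le_rfl) continuous_const).inter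
      ((isOpen_ne_fun (hy.continuous_deriv le_rfl) continuous_const).inter
        (isOpen_ne_fun hx.continuous hy.continuous))
  let J : Type := {ab : ℚ × ℚ // (ab.1 : ℝ) < ab.2 ∧ Icc (ab.1 : ℝ) ab.2 ⊆ O}
  have hsub : {p : ℝ × ℝ | p ∈ Set.range γ ∧ p.1 ≠ p.2} ⊆
      ((x '' {t | deriv x t = 0}) ×ˢ Set.univ ∪ Set.univ ×ˢ (y '' {t | deriv y t = 0})) ∪
        ⋃ j : J, γ '' Icc (j.1.1 : ℝ) j.1.2 := by
    rintro _ ⟨⟨t, rfl⟩, hne⟩
    by_cases h1 : deriv x t = 0
    · exact Or.inl (Or.inl ⟨⟨t, h1, rfl⟩, trivial⟩)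
    · by_cases h2 : deriv y t = 0
      · exact Or.inl (Or.inr ⟨trivial, ⟨t, h2, rfl⟩⟩)
      · right
        have htO : t ∈ O := ⟨h1, h2, hne⟩
        obtain ⟨ε, hε, hball⟩ := Metric.isOpen_iff.1 hOo t htO
        obtain ⟨a, ha1, ha2⟩ := exists_rat_btwn (show t - ε < t by linarith)
        obtain ⟨b, hb1, hb2⟩ := exists_rat_btwn (show t < t + ε by linarith)
        refine Set.mem_iUnion.2 ⟨⟨(a, b), lt_trans ha2 hb1, fun s hs => hball ?_⟩, t,
          ⟨ha2.le, hb1.le⟩, rfl⟩
        rw [Metric.mem_ball, Real.dist_eq, abs_lt]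
        have hs1 : (a : ℝ) ≤ s := hs.1
        have hs2 : s ≤ (b : ℝ) := hs.2
        constructor <;> linarith
  refine measure_mono_null hsub (measure_union_null (measure_union_null ?_ ?_)
    (measure_iUnion_null fun j => ?_))
  · exact (hN _ (sard hx)).1
  · exact (hN _ (sard hy)).2
  · obtain ⟨h, f, g, hcur, hpc⟩ := piece hx hy j.2.1 (fun t ht => (j.2.2 ht).1)
      (fun t ht => (j.2.2 ht).2.1) fun t ht => (j.2.2 ht).2.2
    refine measure_mono_null ?_ (hC h f g hcur)
    rintro _ ⟨t, ht, rfl⟩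
    exact hpc t ht

end Pool.Agent.Helper46.Cc
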